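import Pool.Agent.H958Z.BiRev.Final

namespace Pool.Agent.Results.MP_1d7ced_al.ABireversible

open Pool.Agent.H958Z.BiRev

/-- A finite invertible transducer whose states define pairwise different tree automorphisms and
whose group is free, non-abelian and transitive on the first level is bireversible. -/
theorem result (Q A : Type) [Finite Q] [Finite A] (T : Transducer Q A)
    (hred : Function.Injective T.perm) (hfree : IsFreeGroup T.group)
    (hna : ∃ g h : T.group, g * h ≠ h * g) (htr : ∀ a b : A, ∃ g ∈ T.group, g [a] = [b]) :
    T.Bireversible :=
  T.bireversible_of_free hred hfree hna htr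

end Pool.Agent.Results.MP_1d7ced_al.ABireversible
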